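import Pool.Agent.H93Z.KMP.Spec

/-! The discrete KMP operators on functions of configurations, and the hidden-parameter
comparison principle. -/

set_option autoImplicit false
set_option linter.unusedSectionVars false

namespace Pool.Agent.H93Z.KMP

open Finset

variable {ι : Type} [Fintype ι] [DecidableEq ι]

/-- The monomial `θ ^ f`. -/
def mon (θ : ι → ℝ) (f : ι → ℕ) : ℝ := ∏ i, θ i ^ f i

lemma mon_add (θ : ι → ℝ) (f g : ι → ℕ) : mon θ (f + g) = mon θ f * mon θ g := by
  simp [mon, pow_add, Finset.prod_mul_distrib]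

lemma mon_single (θ : ι → ℝ) (a : ι) (j : ℕ) : mon θ (Pi.single a j) = θ a ^ j := by
  unfold mon
  rw [Finset.prod_eq_single a]
  · simp
  · intro b _ hb; simp [hb]
  · simp

lemma mon_one (f : ι → ℕ) : mon (fun _ => (1 : ℝ)) f = 1 := by simp [mon]

/-- Complete homogeneous symmetric polynomial in the variables of `B`. -/
def hs (B : Finset ι) (θ : ι → ℝ) (l : ℕ) : ℝ := ∑ g ∈ piAntidiag B l, mon θ g

lemma hs_cons {B : Finset ι} {a : ι} (ha : a ∉ B) (θ : ι → ℝ) (l : ℕ) :
    hs (cons a B ha) θ l = ∑ p ∈ antidiagonal l, θ a ^ p.1 * hs B θ p.2 := by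
  unfold hs
  rw [piAntidiag_cons, Finset.sum_disjiUnion]
  refine Finset.sum_congr rfl fun p _ => ?_
  rw [Finset.sum_map, Finset.mul_sum]
  refine Finset.sum_congr rfl fun g _ => ?_
  have : (fun t => if t = a then p.1 else 0) = (Pi.single a p.1 : ι → ℕ) := by
    funext t; simp [Pi.single_apply]
  simp only [addRightEmbedding_apply, this, mon_add, mon_single]
  ring

lemma hs_singleton (a : ι) (θ : ι → ℝ) (l : ℕ) : hs {a} θ l = θ a ^ l := by
  have h := hs_cons (B := ∅) (a := a) (by simp) θ l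
  have e : cons a (∅ : Finset ι) (by simp) = {a} := rfl
  rw [e] at h
  rw [h, Finset.sum_eq_single (l, 0)]
  · simp [hs, mon]
  · intro p hp hne
    have : p.2 ≠ 0 := by
      intro h0
      apply hne
      rw [Finset.HasAntidiagonal.mem_antidiagonal] at hp
      ext <;> simp [← hp, h0]
    simp [hs, this]
  · simp

lemma hs_one (m : ℕ) : ∀ B : Finset ι, B.card = m + 1 → ∀ l,
    hs B (fun _ => 1) l = ((l + m).choose m : ℕ) := by
  induction m with
  | zero =>
    intro B hB l
    obtain ⟨a, rfl⟩ := Finset.card_eq_one.mp hB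
    simp [hs_singleton]
  | succ m ih =>
    intro B hB l
    obtain ⟨a, B', ha, rfl, hB'⟩ := Finset.card_eq_succ.mp hB
    rw [← Finset.cons_eq_insert a B' ha, hs_cons]
    simp only [one_pow, one_mul, ih B' hB']
    rw [Finset.Nat.sum_antidiagonal_eq_sum_range_succ (fun _ i => (((i + m).choose m : ℕ) : ℝ)),
      ← Nat.cast_sum]
    congr 1
    rw [show l + (m + 1) = l + m + 1 by ring, ← Nat.sum_range_add_choose l m,
      ← Finset.sum_range_reflect]
    refine Finset.sum_congr rfl fun i hi => ?_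
    have := mem_range.mp hi
    congr 2
    omega

lemma beta_int (m : ℕ) : ∀ j : ℕ, ∫ x in (0 : ℝ)..1, x ^ j * (1 - x) ^ m =
    (j.factorial * m.factorial : ℝ) / (j + m + 1).factorial := by
  induction m with
  | zero =>
    intro j
    simp only [pow_zero, mul_one, integral_pow, one_pow, Nat.factorial_zero, Nat.cast_one,
      add_zero, Nat.factorial_succ]
    have : (j.factorial : ℝ) ≠ 0 := by exact_mod_cast j.factorial_ne_zero
    push_cast
    field_simp
    simp
  | succ m ih =>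
    intro j
    have e : ∀ x : ℝ, x ^ j * (1 - x) ^ (m + 1) =
        x ^ j * (1 - x) ^ m - x ^ (j + 1) * (1 - x) ^ m := by intro x; ring
    simp only [e]
    rw [intervalIntegral.integral_sub (by apply Continuous.intervalIntegrable; fun_prop)
      (by apply Continuous.intervalIntegrable; fun_prop), ih, ih]
    have h1 : j + 1 + m + 1 = (j + m + 1) + 1 := by ring
    have h2 : j + (m + 1) + 1 = (j + m + 1) + 1 := by ring
    rw [h1, h2, Nat.factorial_succ (j + m + 1), Nat.factorial_succ j, Nat.factorial_succ m]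
    have : ((j + m + 1).factorial : ℝ) ≠ 0 := by exact_mod_cast Nat.factorial_ne_zero _
    push_cast
    field_simp
    ring

/-- Positivity of the Dirichlet moment functional. -/
lemma pos_fun (θ : ι → ℝ) (hθ : ∀ i, 0 ≤ θ i ∧ θ i ≤ 1) (m : ℕ) :
    ∀ B : Finset ι, B.card = m + 1 → ∀ (J : Type) (s : Finset J) (c : J → ℝ) (d : J → ℕ),
      (∀ x : ℝ, 0 ≤ x → x ≤ 1 → 0 ≤ ∑ j ∈ s, c j * x ^ d j) →
      0 ≤ ∑ j ∈ s, c j * (hs B θ (d j) * (d j).factorial / (d j + m).factorial) := by
  induction m with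
  | zero =>
    intro B hB J s c d h
    obtain ⟨a, rfl⟩ := Finset.card_eq_one.mp hB
    refine (h (θ a) (hθ a).1 (hθ a).2).trans (le_of_eq (Finset.sum_congr rfl fun j _ => ?_))
    have : ((d j).factorial : ℝ) ≠ 0 := by exact_mod_cast Nat.factorial_ne_zero _
    rw [hs_singleton, add_zero, mul_div_cancel_right₀ _ this]
  | succ m ih =>
    intro B hB J s c d h
    obtain ⟨a, B', ha, rfl, hB'⟩ := Finset.card_eq_succ.mp hB
    rw [← Finset.cons_eq_insert a B' ha]
    have key : ∀ β : ℝ, 0 ≤ β → β ≤ 1 →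
        0 ≤ ∑ q ∈ s.sigma (fun j => antidiagonal (d j)),
          (c q.1 * ((d q.1).choose q.2.1 : ℕ) * θ a ^ q.2.1 *
            (hs B' θ q.2.2 * (q.2.2).factorial / (q.2.2 + m).factorial)) *
            (β ^ q.2.1 * (1 - β) ^ (q.2.2 + m)) := by
      intro β h0 h1
      have h2 := ih B' hB' _ (s.sigma (fun j => antidiagonal (d j)))
        (fun q => c q.1 * ((d q.1).choose q.2.1 : ℕ) * (β * θ a) ^ q.2.1 * (1 - β) ^ q.2.2)
        (fun q => q.2.2) (by
          intro x hx0 hx1
          have h3 := h (β * θ a + (1 - β) * x)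
            (add_nonneg (mul_nonneg h0 (hθ a).1) (mul_nonneg (by linarith) hx0))
            (by nlinarith [(hθ a).1, (hθ a).2])
          refine h3.trans (le_of_eq ?_)
          rw [Finset.sum_sigma]
          refine Finset.sum_congr rfl fun j _ => ?_
          rw [(Commute.all _ _).add_pow', Finset.mul_sum]
          refine Finset.sum_congr rfl fun p _ => ?_
          simp only [nsmul_eq_mul, mul_pow]
          ring)
      have h4 := mul_nonneg (pow_nonneg (show 0 ≤ 1 - β by linarith) m) h2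
      refine h4.trans (le_of_eq ?_)
      rw [Finset.mul_sum]
      refine Finset.sum_congr rfl fun q _ => ?_
      simp only [mul_pow, pow_add]
      ring
    have hint := intervalIntegral.integral_nonneg (μ := MeasureTheory.volume) zero_le_one
      (fun β (hβ : β ∈ Set.Icc (0 : ℝ) 1) => key β hβ.1 hβ.2)
    rw [intervalIntegral.integral_finsetSum
      (fun q _ => by apply Continuous.intervalIntegrable; fun_prop)] at hint
    simp only [intervalIntegral.integral_const_mul, beta_int] at hint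
    refine hint.trans (le_of_eq ?_)
    rw [Finset.sum_sigma]
    refine Finset.sum_congr rfl fun j _ => ?_
    rw [hs_cons, Finset.sum_mul, Finset.sum_div, Finset.mul_sum]
    refine Finset.sum_congr rfl fun p hp => ?_
    rw [Finset.HasAntidiagonal.mem_antidiagonal] at hp
    simp only
    rw [← hp, Nat.cast_add_choose]
    have h1 : ((p.1).factorial : ℝ) ≠ 0 := by exact_mod_cast Nat.factorial_ne_zero _
    have h2 : ((p.2).factorial : ℝ) ≠ 0 := by exact_mod_cast Nat.factorial_ne_zero _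
    have h3 : ((p.2 + m).factorial : ℝ) ≠ 0 := by exact_mod_cast Nat.factorial_ne_zero _
    have h4 : p.1 + (p.2 + m) + 1 = p.1 + p.2 + (m + 1) := by ring
    have h5 : ((p.1 + p.2 + (m + 1)).factorial : ℝ) ≠ 0 := by
      exact_mod_cast Nat.factorial_ne_zero _
    rw [h4]
    field_simp

/-- Configurations of `k` particles. -/
abbrev Om (ι : Type) [Fintype ι] [DecidableEq ι] (k : ℕ) : Finset (ι → ℕ) := piAntidiag univ k

lemma mem_Om {k : ℕ} {f : ι → ℕ} : f ∈ Om ι k ↔ ∑ i, f i = k := by simp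

/-- The configurations reachable from `f` by redistributing on `B`. -/
def cls (B : Finset ι) (f : ι → ℕ) : Finset (ι → ℕ) :=
  (Om ι (∑ i, f i)).filter fun g => ∀ j, j ∉ B → g j = f j

lemma mem_cls {B : Finset ι} {f g : ι → ℕ} :
    g ∈ cls B f ↔ ∑ i, g i = ∑ i, f i ∧ ∀ j, j ∉ B → g j = f j := by
  simp [cls]

lemma self_mem_cls (B : Finset ι) (f : ι → ℕ) : f ∈ cls B f := mem_cls.mpr ⟨rfl, fun _ _ => rfl⟩

lemma cls_eq {B : Finset ι} {f g : ι → ℕ} (h : g ∈ cls B f) : cls B g = cls B f := by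
  rw [mem_cls] at h
  ext x
  simp only [mem_cls, h.1]
  exact and_congr_right fun _ => forall_congr' fun j => forall_congr' fun hj => by rw [h.2 j hj]

lemma cls_symm {B : Finset ι} {f g : ι → ℕ} (h : g ∈ cls B f) : f ∈ cls B g := by
  rw [cls_eq h]; exact self_mem_cls B f

lemma cls_card_pos (B : Finset ι) (f : ι → ℕ) : (0 : ℝ) < (cls B f).card := by
  exact_mod_cast Finset.card_pos.mpr ⟨f, self_mem_cls B f⟩

/-- Averaging over the class. -/
noncomputable def NB (B : Finset ι) (v : (ι → ℕ) → ℝ) : (ι → ℕ) → ℝ :=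
  fun f => (∑ g ∈ cls B f, v g) / (cls B f).card

/-- Inner product on level `k`. -/
def ip (k : ℕ) (u v : (ι → ℕ) → ℝ) : ℝ := ∑ f ∈ Om ι k, u f * v f

lemma ip_comm (k : ℕ) (u v : (ι → ℕ) → ℝ) : ip k u v = ip k v u :=
  Finset.sum_congr rfl fun _ _ => mul_comm _ _

lemma NB_eq_sum {B : Finset ι} {k : ℕ} {f : ι → ℕ} (hf : f ∈ Om ι k) (v : (ι → ℕ) → ℝ) :
    NB B v f = ∑ g ∈ Om ι k, (if g ∈ cls B f then (1 : ℝ) / (cls B f).card else 0) * v g := by
  have hsub : cls B f ⊆ Om ι k := fun g hg => mem_Om.mpr ((mem_cls.mp hg).1.trans (mem_Om.mp hf))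
  simp only [ite_mul, zero_mul, Finset.sum_ite_mem, Finset.inter_eq_right.mpr hsub, NB,
    Finset.sum_div]
  exact Finset.sum_congr rfl fun g _ => by ring

lemma ker_symm (B : Finset ι) (f g : ι → ℕ) :
    (if g ∈ cls B f then (1 : ℝ) / (cls B f).card else 0) =
      if f ∈ cls B g then (1 : ℝ) / (cls B g).card else 0 := by
  by_cases h : g ∈ cls B f
  · rw [if_pos h, if_pos (cls_symm h), cls_eq h]
  · rw [if_neg h, if_neg fun h' => h (cls_symm h')]

lemma NB_adj (B : Finset ι) (k : ℕ) (u v : (ι → ℕ) → ℝ) : ip k (NB B u) v = ip k u (NB B v) := by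
  unfold ip
  rw [Finset.sum_congr rfl fun f hf => by rw [NB_eq_sum hf u, Finset.sum_mul],
    Finset.sum_comm]
  refine Finset.sum_congr rfl fun g hg => ?_
  rw [NB_eq_sum hg v, Finset.mul_sum]
  refine Finset.sum_congr rfl fun f _ => ?_
  rw [ker_symm]; ring

/-- Constant on classes. -/
def CC (B : Finset ι) (v : (ι → ℕ) → ℝ) : Prop := ∀ f g, g ∈ cls B f → v g = v f

lemma CC_NB (B : Finset ι) (v : (ι → ℕ) → ℝ) : CC B (NB B v) := fun f g h => by
  simp only [NB, cls_eq h]

lemma CC.NB_eq {B : Finset ι} {v : (ι → ℕ) → ℝ} (h : CC B v) : NB B v = v := by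
  funext f
  have := cls_card_pos B f
  simp only [NB, Finset.sum_congr rfl fun g hg => h f g hg, Finset.sum_const, nsmul_eq_mul]
  field_simp

/-- Removing a particle. -/
def Dn (v : (ι → ℕ) → ℝ) : (ι → ℕ) → ℝ := fun f => ∑ i, ((f i : ℝ) + 1) * v (f + Pi.single i 1)

/-- Adding a particle. -/
def Up (v : (ι → ℕ) → ℝ) : (ι → ℕ) → ℝ := fun g => ∑ i, (g i : ℝ) * v (g - Pi.single i 1)

lemma sum_add_single (f : ι → ℕ) (i : ι) : ∑ j, (f + Pi.single i 1 : ι → ℕ) j = ∑ j, f j + 1 := by
  simp [Finset.sum_add_distrib]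

lemma sub_add_single {g : ι → ℕ} {i : ι} (h : g i ≠ 0) :
    (g - Pi.single i 1 + Pi.single i 1 : ι → ℕ) = g := by
  funext j
  by_cases hj : j = i
  · subst hj; simp; omega
  · simp [hj]

lemma sum_sub_single {g : ι → ℕ} {i : ι} (h : g i ≠ 0) :
    ∑ j, (g - Pi.single i 1 : ι → ℕ) j + 1 = ∑ j, g j := by
  rw [← sum_add_single _ i, sub_add_single h]

lemma Dn_adj (k : ℕ) (u v : (ι → ℕ) → ℝ) : ip k (Dn u) v = ip (k + 1) u (Up v) := by
  unfold ip Dn Up
  simp only [Finset.sum_mul, Finset.mul_sum]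
  rw [Finset.sum_comm, Finset.sum_comm (s := Om ι (k + 1))]
  refine Finset.sum_congr rfl fun i _ => ?_
  rw [← Finset.sum_filter_of_ne (s := Om ι (k + 1)) (p := fun g => g i ≠ 0)
    (fun g _ h h0 => h (by simp [h0]))]
  refine Finset.sum_nbij' (fun f => f + Pi.single i 1) (fun g => g - Pi.single i 1) ?_ ?_ ?_ ?_ ?_
  · intro f hf
    simp only [mem_filter, mem_Om] at hf ⊢
    exact ⟨by rw [sum_add_single, hf], by simp⟩
  · intro g hg
    simp only [mem_filter, mem_Om] at hg ⊢
    have := sum_sub_single hg.2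
    omega
  · intro f _; simp
  · intro g hg
    exact sub_add_single (mem_filter.mp hg).2
  · intro f _
    simp only [Pi.add_apply, Pi.single_eq_same, add_tsub_cancel_right]
    push_cast; ring

lemma sum_B_eq {B : Finset ι} {f g : ι → ℕ} (h : g ∈ cls B f) : ∑ i ∈ B, g i = ∑ i ∈ B, f i := by
  rw [mem_cls] at h
  have h1 := Finset.sum_add_sum_compl B g
  have h2 := Finset.sum_add_sum_compl B f
  have h3 : ∑ i ∈ Bᶜ, g i = ∑ i ∈ Bᶜ, f i :=
    Finset.sum_congr rfl fun j hj => h.2 j (mem_compl.mp hj)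
  omega

lemma CC.Dn {B : Finset ι} {v : (ι → ℕ) → ℝ} (h : CC B v) : CC B (Dn v) := by
  intro f g hg
  unfold KMP.Dn
  rw [← Finset.sum_add_sum_compl B, ← Finset.sum_add_sum_compl B (fun i => ((f i : ℝ) + 1) * _)]
  have hg' := mem_cls.mp hg
  congr 1
  · rcases B.eq_empty_or_nonempty with rfl | ⟨b, hb⟩
    · simp
    have e : ∀ x ∈ cls B f, ∀ i ∈ B, v (x + Pi.single i 1) = v (f + Pi.single b 1) := by
      intro x hx i hi
      have hx' := mem_cls.mp hx
      refine h _ _ (mem_cls.mpr ⟨by rw [sum_add_single, sum_add_single, hx'.1], fun j hj => ?_⟩)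
      have h1 : j ≠ i := fun e => hj (e ▸ hi)
      have h2 : j ≠ b := fun e => hj (e ▸ hb)
      simp [h1, h2, hx'.2 j hj]
    have e2 : ∀ x ∈ cls B f, ∑ i ∈ B, ((x i : ℝ) + 1) * v (x + Pi.single i 1) =
        (((∑ i ∈ B, f i : ℕ) : ℝ) + B.card) * v (f + Pi.single b 1) := by
      intro x hx
      rw [Finset.sum_congr rfl fun i hi => congrArg (((x i : ℝ) + 1) * ·) (e x hx i hi),
        ← Finset.sum_mul, Finset.sum_add_distrib, ← Nat.cast_sum, sum_B_eq hx]
      simp
    rw [e2 g hg, e2 f (self_mem_cls B f)]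
  · refine Finset.sum_congr rfl fun i hi => ?_
    rw [hg'.2 i (mem_compl.mp hi)]
    congr 1
    refine h _ _ (mem_cls.mpr ⟨by rw [sum_add_single, sum_add_single, hg'.1], fun j hj => ?_⟩)
    simp [hg'.2 j hj]

lemma CC.Up {B : Finset ι} {v : (ι → ℕ) → ℝ} (h : CC B v) : CC B (Up v) := by
  intro f g hg
  unfold KMP.Up
  rw [← Finset.sum_add_sum_compl B, ← Finset.sum_add_sum_compl B (fun i => (f i : ℝ) * _)]
  have hg' := mem_cls.mp hg
  congr 1
  · by_cases h0 : ∃ b ∈ B, f b ≠ 0
    · obtain ⟨b, hb, hfb⟩ := h0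
      have e : ∀ x ∈ cls B f, ∀ i ∈ B,
          (x i : ℝ) * v (x - Pi.single i 1) = x i * v (f - Pi.single b 1) := by
        intro x hx i hi
        by_cases hxi : x i = 0
        · simp [hxi]
        have hx' := mem_cls.mp hx
        congr 1
        refine h _ _ (mem_cls.mpr ⟨?_, fun j hj => ?_⟩)
        · have h1 := sum_sub_single hxi
          have h2 := sum_sub_single hfb
          omega
        · have h1 : j ≠ i := fun e => hj (e ▸ hi)
          have h2 : j ≠ b := fun e => hj (e ▸ hb)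
          simp [h1, h2, hx'.2 j hj]
      rw [Finset.sum_congr rfl fun i hi => e g hg i hi,
        Finset.sum_congr rfl fun i hi => e f (self_mem_cls B f) i hi,
        ← Finset.sum_mul, ← Finset.sum_mul, ← Nat.cast_sum, ← Nat.cast_sum, sum_B_eq hg]
    · push Not at h0
      have h1 : ∑ i ∈ B, g i = 0 := by rw [sum_B_eq hg]; exact Finset.sum_eq_zero h0
      rw [Finset.sum_eq_zero_iff] at h1
      rw [Finset.sum_eq_zero fun i hi => by rw [h1 i hi]; simp,
        Finset.sum_eq_zero fun i hi => by rw [h0 i hi]; simp]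
  · refine Finset.sum_congr rfl fun i hi => ?_
    have hi' := hg'.2 i (mem_compl.mp hi)
    rw [hi']
    by_cases hfi : f i = 0
    · simp [hfi]
    congr 1
    refine h _ _ (mem_cls.mpr ⟨?_, fun j hj => ?_⟩)
    · have h1 := sum_sub_single hfi
      have h2 := sum_sub_single (g := g) (i := i) (by rw [hi']; exact hfi)
      omega
    · simp [hg'.2 j hj]

lemma eq_of_ip {k : ℕ} {u u' : (ι → ℕ) → ℝ} (h : ∀ v, ip k u v = ip k u' v) {f : ι → ℕ}
    (hf : f ∈ Om ι k) : u f = u' f := by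
  have := h (fun g => if g = f then 1 else 0)
  simpa [ip, mem_Om.mp hf] using this

lemma Dn_NB (B : Finset ι) (u : (ι → ℕ) → ℝ) : Dn (NB B u) = NB B (Dn u) := by
  funext f
  refine eq_of_ip (k := ∑ i, f i) (fun v => ?_) (mem_Om.mpr rfl)
  rw [← (CC_NB B u).Dn.NB_eq, NB_adj, Dn_adj, NB_adj, (CC_NB B v).Up.NB_eq, NB_adj, Dn_adj]

lemma Up_NB (B : Finset ι) (u : (ι → ℕ) → ℝ) {k : ℕ} {f : ι → ℕ} (hf : f ∈ Om ι (k + 1)) :
    Up (NB B u) f = NB B (Up u) f := by
  refine eq_of_ip (fun v => ?_) hf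
  rw [ip_comm, ← Dn_adj, ← NB_adj, ← Dn_NB, Dn_adj, ip_comm, NB_adj]

/-- The part of `f` outside `B`. -/
def off (B : Finset ι) (f : ι → ℕ) : ι → ℕ := fun i => if i ∈ B then 0 else f i

lemma sum_cls (B : Finset ι) (f : ι → ℕ) (F : (ι → ℕ) → ℝ) :
    ∑ g ∈ cls B f, F g = ∑ g ∈ piAntidiag B (∑ i ∈ B, f i), F (g + off B f) := by
  symm
  have hoff : ∑ i, off B f i = ∑ i ∈ Bᶜ, f i := by
    rw [← Finset.sum_add_sum_compl B, Finset.sum_eq_zero fun i hi => by simp [off, hi], zero_add]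
    exact Finset.sum_congr rfl fun i hi => by simp [off, mem_compl.mp hi]
  refine Finset.sum_nbij' (fun g => g + off B f) (fun g i => if i ∈ B then g i else 0)
    ?_ ?_ ?_ ?_ (fun _ _ => rfl)
  · intro g hg
    rw [mem_piAntidiag] at hg
    have h0 : ∀ j, j ∉ B → g j = 0 := fun j hj => by
      by_contra h; exact hj (hg.2 j h)
    refine mem_cls.mpr ⟨?_, fun j hj => by simp [off, hj, h0 j hj]⟩
    simp only [Pi.add_apply, Finset.sum_add_distrib, hoff]
    rw [← Finset.sum_add_sum_compl B f, ← hg.1, ← Finset.sum_add_sum_compl B g,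
      Finset.sum_eq_zero fun j hj => h0 j (mem_compl.mp hj), add_zero]
  · intro g hg
    rw [mem_piAntidiag]
    refine ⟨?_, fun i hi => ?_⟩
    · rw [← sum_B_eq hg]
      exact Finset.sum_congr rfl fun i hi => by simp [hi]
    · by_contra h; simp [h] at hi
  · intro g hg
    rw [mem_piAntidiag] at hg
    funext i
    by_cases hi : i ∈ B
    · simp [hi, off]
    · have : g i = 0 := by by_contra h; exact hi (hg.2 i h)
      simp [hi, this]
  · intro g hg
    funext i
    by_cases hi : i ∈ B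
    · simp [hi, off]
    · simp [hi, off, (mem_cls.mp hg).2 i hi]

lemma NB_mon {B : Finset ι} {m : ℕ} (hB : B.card = m + 1) (θ : ι → ℝ) (f : ι → ℕ) :
    NB B (mon θ) f = m.factorial * (mon θ (off B f) * (hs B θ (∑ i ∈ B, f i) *
      (∑ i ∈ B, f i).factorial / (∑ i ∈ B, f i + m).factorial)) := by
  have h1 : ((cls B f).card : ℝ) = hs B (fun _ => 1) (∑ i ∈ B, f i) := by
    have := sum_cls B f (fun _ => 1)
    simp only [Finset.sum_const, nsmul_eq_mul, mul_one] at this
    rw [this]; simp [hs, mon_one]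
  unfold NB
  rw [h1, hs_one m B hB, sum_cls, ← Nat.choose_symm_add, Nat.cast_add_choose]
  simp only [mon_add, ← Finset.sum_mul]
  have h2 : ((∑ i ∈ B, f i).factorial : ℝ) ≠ 0 := by exact_mod_cast Nat.factorial_ne_zero _
  have h3 : ((∑ i ∈ B, f i + m).factorial : ℝ) ≠ 0 := by exact_mod_cast Nat.factorial_ne_zero _
  have h4 : (m.factorial : ℝ) ≠ 0 := by exact_mod_cast Nat.factorial_ne_zero _
  unfold hs
  field_simp

lemma mon_upd (B : Finset ι) (θ : ι → ℝ) (x : ℝ) (f : ι → ℕ) :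
    mon (fun i => if i ∈ B then x else θ i) f = mon θ (off B f) * x ^ ∑ i ∈ B, f i := by
  unfold mon
  rw [← Finset.prod_pow_eq_pow_sum]
  have e : ∏ i ∈ B, x ^ f i = ∏ i, if i ∈ B then x ^ f i else 1 := by simp
  rw [e, ← Finset.prod_mul_distrib]
  refine Finset.prod_congr rfl fun i _ => ?_
  by_cases hi : i ∈ B <;> simp [off, hi]

/-- Points of the unit cube. -/
def Cube (θ : ι → ℝ) : Prop := ∀ i, 0 ≤ θ i ∧ θ i ≤ 1

/-- The comparison principle. -/
lemma NB_mono (B : Finset ι) {k l : ℕ} {v u : (ι → ℕ) → ℝ}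
    (h : ∀ θ, Cube θ → ip k v (mon θ) ≤ ip l u (mon θ)) (θ : ι → ℝ) (hθ : Cube θ) :
    ip k (NB B v) (mon θ) ≤ ip l (NB B u) (mon θ) := by
  rw [NB_adj, NB_adj]
  rcases B.eq_empty_or_nonempty with rfl | hB
  · have : CC (∅ : Finset ι) (mon θ) := fun f g hg => by
      rw [show g = f from funext fun j => (mem_cls.mp hg).2 j (by simp)]
    rw [this.NB_eq]; exact h θ hθ
  obtain ⟨m, hm⟩ : ∃ m, B.card = m + 1 := ⟨B.card - 1, by have := hB.card_pos; omega⟩
  have key := pos_fun θ hθ m B hm ((ι → ℕ) ⊕ (ι → ℕ)) ((Om ι l).disjSum (Om ι k))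
    (Sum.elim (fun f => u f * mon θ (off B f)) (fun f => -(v f * mon θ (off B f))))
    (Sum.elim (fun f => ∑ i ∈ B, f i) (fun f => ∑ i ∈ B, f i)) (by
      intro x hx0 hx1
      have h1 := h (fun i => if i ∈ B then x else θ i) (fun i => by
        by_cases hi : i ∈ B
        · simp [hi, hx0, hx1]
        · simpa [hi] using hθ i)
      simp only [ip, mon_upd] at h1
      simp only [Finset.sum_disjSum, Sum.elim_inl, Sum.elim_inr, neg_mul, Finset.sum_neg_distrib,
        mul_assoc]
      linarith)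
  simp only [Finset.sum_disjSum, Sum.elim_inl, Sum.elim_inr, neg_mul, Finset.sum_neg_distrib,
    mul_assoc] at key
  simp only [ip, NB_mon hm, mul_left_comm _ (m.factorial : ℝ), ← Finset.mul_sum]
  exact mul_le_mul_of_nonneg_left (by linarith) (Nat.cast_nonneg _)

end Pool.Agent.H93Z.KMP
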