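import Pool.Agent.H93Z.KMP.Core

/-! The two-particle spectral gap identity for discrete KMP processes. -/

set_option autoImplicit false
set_option linter.unusedSectionVars false

namespace Pool.Agent.H93Z.KMP

open Finset Matrix

variable {ι : Type} [Fintype ι] [DecidableEq ι]

/-- The generator acting on functions of configurations. -/
noncomputable def Lop (w : Finset ι → ℝ) (v : (ι → ℕ) → ℝ) : (ι → ℕ) → ℝ :=
  fun f => ∑ B, w B * (v f - NB B v f)

/-- Eigenvalues on level `k` with an eigenfunction of sum zero. -/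
def EigT (w : Finset ι → ℝ) (k : ℕ) (μ : ℝ) : Prop :=
  ∃ v : (ι → ℕ) → ℝ, (∃ f ∈ Om ι k, v f ≠ 0) ∧ ∑ f ∈ Om ι k, v f = 0 ∧
    ∀ f ∈ Om ι k, Lop w v f = μ * v f

lemma Dn_Lop (w : Finset ι → ℝ) (v : (ι → ℕ) → ℝ) (f : ι → ℕ) :
    Dn (Lop w v) f = Lop w (Dn v) f := by
  unfold Lop
  simp only [← Dn_NB]
  simp only [Dn, Finset.mul_sum, ← Finset.sum_sub_distrib]
  rw [Finset.sum_comm]
  exact Finset.sum_congr rfl fun _ _ => Finset.sum_congr rfl fun _ _ => by ring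

lemma Up_Lop (w : Finset ι → ℝ) (v : (ι → ℕ) → ℝ) {k : ℕ} {f : ι → ℕ} (hf : f ∈ Om ι (k + 1)) :
    Up (Lop w v) f = Lop w (Up v) f := by
  unfold Lop
  simp only [← Up_NB _ _ hf]
  simp only [Up, Finset.mul_sum, ← Finset.sum_sub_distrib]
  rw [Finset.sum_comm]
  exact Finset.sum_congr rfl fun _ _ => Finset.sum_congr rfl fun _ _ => by ring

lemma EigT.up [Nonempty ι] {w : Finset ι → ℝ} {k : ℕ} {μ : ℝ} (h : EigT w k μ) :
    EigT w (k + 1) μ := by
  obtain ⟨v, ⟨f0, hf0, hv0⟩, hs, he⟩ := h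
  refine ⟨Up v, ?_, ?_, fun f hf => ?_⟩
  · obtain ⟨i0⟩ := ‹Nonempty ι›
    obtain ⟨f, hf, hmax⟩ := Finset.exists_max_image ((Om ι k).filter fun f => v f ≠ 0)
      (fun f => f i0) ⟨f0, mem_filter.mpr ⟨hf0, hv0⟩⟩
    rw [mem_filter, mem_Om] at hf
    refine ⟨f + Pi.single i0 1, mem_Om.mpr (by rw [sum_add_single, hf.1]), ?_⟩
    unfold Up
    rw [Finset.sum_eq_single i0]
    · simp only [Pi.add_apply, Pi.single_eq_same, add_tsub_cancel_right]
      exact mul_ne_zero (by positivity) hf.2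
    · intro i _ hi
      by_cases h0 : (f + Pi.single i0 1 : ι → ℕ) i = 0
      · rw [h0]; simp
      by_contra h1
      have h2 := hmax (f + Pi.single i0 1 - Pi.single i 1) (mem_filter.mpr ⟨mem_Om.mpr (by
        have h3 := sum_sub_single h0
        rw [sum_add_single, hf.1] at h3
        omega), right_ne_zero_of_mul h1⟩)
      simp [hi.symm] at h2
    · simp
  · have h1 := Dn_adj k (fun _ => 1) v
    simp only [ip, one_mul] at h1
    rw [← h1, Finset.sum_congr rfl (g := fun f => ((k : ℝ) + Fintype.card ι) * v f)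
      fun f hf => by
        simp only [Dn, mul_one, Finset.sum_add_distrib, ← Nat.cast_sum, mem_Om.mp hf]
        simp,
      ← Finset.mul_sum, hs, mul_zero]
  · rw [← Up_Lop w v hf]
    simp only [Up, Finset.mul_sum]
    refine Finset.sum_congr rfl fun i _ => ?_
    by_cases h0 : f i = 0
    · simp [h0]
    rw [he _ (mem_Om.mpr (by
      have h3 := sum_sub_single h0
      rw [mem_Om.mp hf] at h3
      omega))]
    ring

lemma EigT.down {w : Finset ι → ℝ} {k : ℕ} {μ : ℝ} (h : EigT w (k + 1) μ) :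
    EigT w k μ ∨ ∃ v : (ι → ℕ) → ℝ, (∃ f ∈ Om ι (k + 1), v f ≠ 0) ∧
      (∀ f ∈ Om ι k, Dn v f = 0) ∧ ∀ f ∈ Om ι (k + 1), Lop w v f = μ * v f := by
  obtain ⟨v, hv0, hs, he⟩ := h
  by_cases h0 : ∀ f ∈ Om ι k, Dn v f = 0
  · exact Or.inr ⟨v, hv0, h0, he⟩
  push Not at h0
  refine Or.inl ⟨Dn v, h0, ?_, fun f hf => ?_⟩
  · have h1 := Dn_adj k v (fun _ => 1)
    simp only [ip, mul_one] at h1
    rw [h1, Finset.sum_congr rfl (g := fun f => v f * ((k + 1 : ℕ) : ℝ))
      fun f hf => by simp only [Up, mul_one, ← Nat.cast_sum, mem_Om.mp hf],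
      ← Finset.sum_mul, hs, zero_mul]
  · rw [← Dn_Lop]
    simp only [Dn, Finset.mul_sum]
    refine Finset.sum_congr rfl fun i _ => ?_
    rw [he _ (mem_Om.mpr (by rw [sum_add_single, mem_Om.mp hf]))]
    ring

lemma hasDerivAt_mon (θ : ι → ℝ) (f : ι → ℕ) (c : ℝ) :
    HasDerivAt (fun c => mon (fun i => θ i + c) f) (Up (mon fun i => θ i + c) f) c := by
  have h := HasDerivAt.fun_finsetProd (u := univ) (x := c)
    (f := fun i c => (θ i + c) ^ f i) (f' := fun i => (f i : ℝ) * (θ i + c) ^ (f i - 1))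
    (fun i _ => by simpa using ((hasDerivAt_id c).const_add (θ i)).fun_pow (f i))
  refine h.congr_deriv (Eq.symm ?_)
  unfold Up
  refine Finset.sum_congr rfl fun i _ => ?_
  unfold mon
  rw [← Finset.mul_prod_erase univ _ (mem_univ i), smul_eq_mul,
    Finset.prod_congr rfl (s₁ := univ.erase i)
      (g := fun j => (θ j + c) ^ f j) fun j hj => by simp [ne_of_mem_erase hj]]
  simp only [Pi.sub_apply, Pi.single_eq_same]
  ring

lemma transl {k : ℕ} {v : (ι → ℕ) → ℝ} (h : ∀ f ∈ Om ι k, Dn v f = 0) (θ : ι → ℝ) (c : ℝ) :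
    ip (k + 1) v (mon fun i => θ i + c) = ip (k + 1) v (mon θ) := by
  have hd : ∀ c, HasDerivAt (fun c => ip (k + 1) v (mon fun i => θ i + c)) 0 c := by
    intro c
    have h1 := HasDerivAt.fun_sum (u := Om ι (k + 1))
      fun f _ => (hasDerivAt_mon θ f c).const_mul (v f)
    have h2 : ∑ f ∈ Om ι (k + 1), v f * Up (mon fun i => θ i + c) f = 0 := by
      have h3 := Dn_adj k v (mon fun i => θ i + c)
      unfold ip at h3
      rw [← h3]
      exact Finset.sum_eq_zero fun f hf => by rw [h f hf, zero_mul]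
    rw [h2] at h1
    exact h1
  have := is_const_of_deriv_eq_zero (fun c => (hd c).differentiableAt) (fun c => (hd c).deriv) c 0
  simpa using this

lemma exists_ne_zero {k : ℕ} {v : (ι → ℕ) → ℝ} (h : ∃ f ∈ Om ι k, v f ≠ 0) :
    ∃ θ, Cube θ ∧ ip k v (mon θ) ≠ 0 := by
  by_contra hc
  push Not at hc
  obtain ⟨f0, hf0, hv0⟩ := h
  set p : MvPolynomial ι ℝ :=
    ∑ f ∈ Om ι k, MvPolynomial.monomial (Finsupp.equivFunOnFinite.symm f) (v f) with hp
  have h1 : p = 0 := by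
    refine MvPolynomial.funext_set (s := fun _ => Set.Icc (0 : ℝ) 1)
      (fun _ => Set.Icc_infinite zero_lt_one) fun x hx => ?_
    rw [map_zero, ← hc x fun i => hx i (Set.mem_univ i), hp, map_sum]
    refine Finset.sum_congr rfl fun f _ => ?_
    rw [MvPolynomial.eval_monomial, Finsupp.prod_fintype _ _ (by simp)]
    simp [mon]
  have h2 := congrArg (MvPolynomial.coeff (Finsupp.equivFunOnFinite.symm f0)) h1
  rw [hp, MvPolynomial.coeff_sum, Finset.sum_eq_single f0] at h2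
  · simp [hv0] at h2
  · intro f _ hne
    rw [MvPolynomial.coeff_monomial, if_neg]
    intro e; exact hne (Finsupp.equivFunOnFinite.symm.injective e)
  · intro h; exact absurd hf0 h

lemma exists_quad (i0 : ι) : ∃ u : (ι → ℕ) → ℝ,
    ∀ θ : ι → ℝ, ip 2 u (mon θ) = ∑ i, (θ i - θ i0) ^ 2 := by
  have e : ∀ (a b : ι) (θ : ι → ℝ), ∑ f ∈ Om ι 2,
      (if f = Pi.single a 1 + Pi.single b 1 then (1 : ℝ) else 0) * mon θ f = θ a * θ b := by
    intro a b θ
    have : (Pi.single a 1 + Pi.single b 1 : ι → ℕ) ∈ Om ι 2 := by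
      rw [mem_Om, sum_add_single]; simp
    simp only [ite_mul, one_mul, zero_mul, Finset.sum_ite_eq', this, if_true, mon_add, mon_single,
      pow_one]
  refine ⟨fun f => ∑ i, ((if f = Pi.single i 1 + Pi.single i 1 then (1 : ℝ) else 0) -
    2 * (if f = Pi.single i 1 + Pi.single i0 1 then (1 : ℝ) else 0) +
    (if f = Pi.single i0 1 + Pi.single i0 1 then (1 : ℝ) else 0)), fun θ => ?_⟩
  unfold ip
  simp only [Finset.sum_mul]
  rw [Finset.sum_comm]
  refine Finset.sum_congr rfl fun i _ => ?_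
  simp only [add_mul, sub_mul, mul_assoc, Finset.sum_add_distrib, Finset.sum_sub_distrib,
    ← Finset.mul_sum, e]
  ring

lemma bound_quad {k : ℕ} {v : (ι → ℕ) → ℝ} (h : ∀ f ∈ Om ι (k + 1), Dn v f = 0) (i0 : ι)
    (θ : ι → ℝ) (hθ : Cube θ) :
    |ip (k + 2) v (mon θ)| ≤ (∑ f ∈ Om ι (k + 2), |v f|) * ∑ i, (θ i - θ i0) ^ 2 := by
  rw [← transl h θ (-θ i0), Finset.sum_mul]
  refine (Finset.abs_sum_le_sum_abs _ _).trans (Finset.sum_le_sum fun f hf => ?_)
  rw [abs_mul]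
  refine mul_le_mul_of_nonneg_left ?_ (abs_nonneg _)
  set q := ∑ i, (θ i - θ i0) ^ 2 with hq
  have hq0 : 0 ≤ q := Finset.sum_nonneg fun _ _ => sq_nonneg _
  set m := min 1 √q with hm
  have hm0 : 0 ≤ m := le_min zero_le_one (Real.sqrt_nonneg _)
  have h1 : ∀ i, |θ i + -θ i0| ≤ m := by
    intro i
    refine le_min ?_ ?_
    · rw [abs_le]; constructor <;> linarith [(hθ i).1, (hθ i).2, (hθ i0).1, (hθ i0).2]
    · refine Real.abs_le_sqrt ?_
      exact Finset.single_le_sum (f := fun i => (θ i - θ i0) ^ 2) (fun _ _ => sq_nonneg _)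
        (mem_univ i)
  unfold mon
  rw [Finset.abs_prod]
  calc ∏ i, |(θ i + -θ i0) ^ f i| ≤ ∏ i, m ^ f i :=
        Finset.prod_le_prod (fun _ _ => abs_nonneg _) fun i _ => by
          rw [abs_pow]; exact pow_le_pow_left₀ (abs_nonneg _) (h1 i) _
    _ = m ^ k * m ^ 2 := by rw [Finset.prod_pow_eq_pow_sum, mem_Om.mp hf]; ring
    _ ≤ 1 * √q ^ 2 := by
        gcongr
        · exact pow_le_one₀ hm0 (min_le_left _ _)
        · exact min_le_right _ _
    _ = q := by rw [one_mul, Real.sq_sqrt hq0]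

lemma Pop_mono {w : Finset ι → ℝ} (hw : ∀ B, 0 ≤ w B) {W : ℝ} (hW : 0 < W) (hwW : ∑ B, w B ≤ W)
    {k l : ℕ} {v u : (ι → ℕ) → ℝ}
    (h : ∀ θ, Cube θ → ip k v (mon θ) ≤ ip l u (mon θ)) (θ : ι → ℝ) (hθ : Cube θ) :
    ip k (fun f => v f - W⁻¹ * Lop w v f) (mon θ) ≤
      ip l (fun f => u f - W⁻¹ * Lop w u f) (mon θ) := by
  have e : ∀ (k : ℕ) (v : (ι → ℕ) → ℝ), ip k (fun f => v f - W⁻¹ * Lop w v f) (mon θ) =
      (1 - W⁻¹ * ∑ B, w B) * ip k v (mon θ) + W⁻¹ * ∑ B, w B * ip k (NB B v) (mon θ) := by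
    intro k v
    have e1 : ∑ B, w B * ip k (NB B v) (mon θ) =
        ∑ f ∈ Om ι k, (∑ B, w B * NB B v f) * mon θ f := by
      simp only [ip, Finset.mul_sum, Finset.sum_mul, mul_assoc]
      exact Finset.sum_comm
    rw [e1, ip, ip, Finset.mul_sum (s := Om ι k), Finset.mul_sum (s := Om ι k),
      ← Finset.sum_add_distrib]
    refine Finset.sum_congr rfl fun f _ => ?_
    simp only [Lop, mul_sub, Finset.sum_sub_distrib, ← Finset.sum_mul]
    ring
  rw [e, e]
  have h1 : 0 ≤ 1 - W⁻¹ * ∑ B, w B := by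
    rw [sub_nonneg, inv_mul_le_iff₀ hW]; linarith
  refine add_le_add (mul_le_mul_of_nonneg_left (h θ hθ) h1)
    (mul_le_mul_of_nonneg_left (Finset.sum_le_sum fun B _ => ?_) (inv_nonneg.mpr hW.le))
  exact mul_le_mul_of_nonneg_left (NB_mono B h θ hθ) (hw B)

/-- The redistribution matrix on level `k`. -/
noncomputable def Nm (B : Finset ι) (k : ℕ) : Matrix (Om ι k) (Om ι k) ℝ :=
  fun g f => if f.1 ∈ cls B g.1 then (1 : ℝ) / (cls B g.1).card else 0

/-- The generator matrix on level `k`. -/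
noncomputable def Lm (w : Finset ι → ℝ) (k : ℕ) : Matrix (Om ι k) (Om ι k) ℝ :=
  ∑ B, w B • (1 - Nm B k)

lemma Lm_herm (w : Finset ι → ℝ) (k : ℕ) : (Lm w k).IsHermitian := by
  ext f g
  simp only [Lm, conjTranspose_apply, star_trivial, Matrix.sum_apply, Matrix.smul_apply,
    Matrix.sub_apply, Nm, ker_symm _ g.1 f.1, Matrix.one_apply, eq_comm (a := g)]

lemma Lm_mulVec (w : Finset ι → ℝ) (k : ℕ) (v : (ι → ℕ) → ℝ) (f : Om ι k) :
    (Lm w k *ᵥ fun g => v g.1) f = Lop w v f.1 := by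
  rw [Lm, Matrix.sum_mulVec, Finset.sum_apply]
  refine Finset.sum_congr rfl fun B _ => ?_
  rw [smul_mulVec, sub_mulVec, one_mulVec, NB_eq_sum f.2, ← Finset.sum_coe_sort (Om ι k)]
  rfl

lemma Lm_one (w : Finset ι → ℝ) (k : ℕ) : Lm w k *ᵥ (fun _ => 1) = 0 := by
  funext f
  have h := Lm_mulVec w k (fun _ => 1) f
  have h2 : ∀ B : Finset ι, NB B (fun _ => (1 : ℝ)) = fun _ => 1 :=
    fun B => CC.NB_eq fun _ _ _ => rfl
  simpa [Lop, h2] using h

/-- Extension by zero. -/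
noncomputable def ext0 {k : ℕ} (x : Om ι k → ℝ) : (ι → ℕ) → ℝ :=
  fun f => if h : f ∈ Om ι k then x ⟨f, h⟩ else 0

lemma ext0_val {k : ℕ} (x : Om ι k → ℝ) (f : Om ι k) : ext0 x f.1 = x f := by
  unfold ext0; rw [dif_pos f.2]

lemma Eig_iff (w : Finset ι → ℝ) (k : ℕ) (μ : ℝ) : Eig (Lm w k) μ ↔ EigT w k μ := by
  constructor
  · rintro ⟨x, hx0, hs, he⟩
    refine ⟨ext0 x, ?_, ?_, fun f hf => ?_⟩
    · obtain ⟨f, hf⟩ := Function.ne_iff.mp hx0
      exact ⟨f.1, f.2, by rwa [ext0_val]⟩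
    · rw [← Finset.sum_coe_sort (Om ι k)]; simpa only [ext0_val] using hs
    · rw [← Lm_mulVec w k (ext0 x) ⟨f, hf⟩]
      simp only [ext0_val, he]
      rw [ext0_val x ⟨f, hf⟩]; rfl
  · rintro ⟨v, ⟨f, hf, hv⟩, hs, he⟩
    refine ⟨fun g => v g.1, fun h => hv (congrFun h ⟨f, hf⟩), ?_, ?_⟩
    · rw [Finset.sum_coe_sort (Om ι k) v, hs]
    · funext g
      rw [Lm_mulVec, he _ g.2]; rfl

lemma invariant_case [Nonempty ι] {w : Finset ι → ℝ} (hw : ∀ B, 0 ≤ w B) {l W : ℝ} (hW : 0 < W)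
    (hwW : ∑ B, w B ≤ W) (hl : l ≤ W) (hE : ∀ μ, Eig (Lm w 2) μ → l ≤ μ ∧ μ ≤ W)
    {k : ℕ} {μ : ℝ} {v : (ι → ℕ) → ℝ} (hv0 : ∃ f ∈ Om ι (k + 2), v f ≠ 0)
    (hD : ∀ f ∈ Om ι (k + 1), Dn v f = 0) (he : ∀ f ∈ Om ι (k + 2), Lop w v f = μ * v f) :
    l ≤ μ := by
  obtain ⟨i0⟩ := ‹Nonempty ι›
  obtain ⟨θ0, hθ0, hne⟩ := exists_ne_zero hv0
  obtain ⟨u, hu⟩ := exists_quad i0
  have : Nonempty (Om ι 2) := ⟨⟨Pi.single i0 2, by simp⟩⟩
  set S := ∑ f ∈ Om ι (k + 2), |v f| with hS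
  have hx : ∑ g : Om ι 2, S * u g.1 = 0 := by
    have h1 := hu (fun _ => 1)
    simp only [ip, mon_one, mul_one, sub_self] at h1
    rw [← Finset.mul_sum, Finset.sum_coe_sort (Om ι 2) u, h1]; simp
  obtain ⟨c, hc⟩ := decay (Lm_herm w 2) (Lm_one w 2) hW hl hE hx
  set p0 := ip (k + 2) v (mon θ0) with hp0
  set σ := 1 - μ / W with hσ
  set ρ := 1 - l / W with hρ
  have hsm : ∀ (a : ℝ) (θ : ι → ℝ),
      ip (k + 2) (fun f => a * v f) (mon θ) = a * ip (k + 2) v (mon θ) := by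
    intro a θ; simp only [ip, Finset.mul_sum, mul_assoc]
  have key : ∀ (s : ℝ), |s| = 1 → ∀ (t : ℕ) (θ : ι → ℝ), Cube θ →
      ip (k + 2) (fun f => s * σ ^ t * v f) (mon θ) ≤
        ip 2 (ext0 (((1 - W⁻¹ • Lm w 2) ^ t) *ᵥ fun g => S * u g.1)) (mon θ) := by
    intro s hs t
    induction t with
    | zero =>
      intro θ hθ
      rw [hsm, pow_zero, mul_one, pow_zero, one_mulVec]
      have h1 : ip 2 (ext0 fun g : Om ι 2 => S * u g.1) (mon θ) = S * ip 2 u (mon θ) := by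
        simp only [ip, Finset.mul_sum]
        exact Finset.sum_congr rfl fun f hf => by
          rw [ext0_val (fun g : Om ι 2 => S * u g.1) ⟨f, hf⟩, mul_assoc]
      rw [h1, hu]
      refine (le_abs_self _).trans ?_
      rw [abs_mul, hs, one_mul]
      exact bound_quad hD i0 θ hθ
    | succ t ih =>
      intro θ hθ
      have h1 := Pop_mono hw hW hwW ih θ hθ
      convert h1 using 1
      · refine Finset.sum_congr rfl fun f hf => ?_
        congr 1
        have h2 : Lop w (fun f => s * σ ^ t * v f) f = s * σ ^ t * Lop w v f := by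
          unfold Lop NB
          rw [Finset.mul_sum]
          exact Finset.sum_congr rfl fun B _ => by rw [← Finset.mul_sum]; ring
        simp only [h2, he f hf, pow_succ]
        rw [show s * (σ ^ t * σ) = s * (σ ^ t * (1 - μ / W)) from rfl]
        field_simp
      · refine Finset.sum_congr rfl fun f hf => ?_
        congr 1
        rw [ext0_val _ ⟨f, hf⟩, pow_succ', ← mulVec_mulVec, sub_mulVec, one_mulVec, smul_mulVec]
        simp only [Pi.sub_apply, Pi.smul_apply, smul_eq_mul]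
        rw [← Lm_mulVec w 2 _ ⟨f, hf⟩, ext0_val _ ⟨f, hf⟩]
        simp only [ext0_val]
  have hb : ∀ t : ℕ, σ ^ t * |p0| ≤ (Om ι 2).card * c * ρ ^ t := by
    intro t
    obtain ⟨s, hs, hsp⟩ : ∃ s : ℝ, |s| = 1 ∧ s * p0 = |p0| := by
      rcases abs_cases p0 with h | h
      · exact ⟨1, abs_one, by rw [one_mul, h.1]⟩
      · exact ⟨-1, by simp, by rw [h.1]; ring⟩
    have h1 := key s hs t θ0 hθ0
    rw [hsm, ← hp0, mul_right_comm, hsp, mul_comm] at h1
    refine h1.trans ?_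
    rw [mul_assoc, ← nsmul_eq_mul, ← Finset.sum_const]
    refine Finset.sum_le_sum fun f hf => (le_abs_self _).trans ?_
    rw [abs_mul, ext0_val _ ⟨f, hf⟩]
    have h2 : |mon θ0 f| ≤ 1 := by
      unfold mon
      rw [Finset.abs_prod]
      refine Finset.prod_le_one (fun _ _ => abs_nonneg _) fun i _ => ?_
      rw [abs_pow, abs_of_nonneg (hθ0 i).1]
      exact pow_le_one₀ (hθ0 i).1 (hθ0 i).2
    have h3 := hc t ⟨f, hf⟩
    exact (mul_le_of_le_one_right (abs_nonneg _) h2).trans h3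
  by_contra hlt
  push Not at hlt
  have hρ0 : 0 ≤ ρ := by rw [hρ, sub_nonneg, div_le_one hW]; exact hl
  have hρσ : ρ < σ := by
    have := div_lt_div_of_pos_right hlt hW
    rw [hρ, hσ]; linarith
  have hσ0 : 0 < σ := lt_of_le_of_lt hρ0 hρσ
  have hp : 0 < |p0| := abs_pos.mpr hne
  have hlim : Filter.Tendsto (fun t : ℕ => (Om ι 2).card * c * (ρ / σ) ^ t) Filter.atTop
      (nhds ((Om ι 2).card * c * 0)) :=
    (tendsto_pow_atTop_nhds_zero_of_lt_one (div_nonneg hρ0 hσ0.le)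
      ((div_lt_one hσ0).mpr hρσ)).const_mul _
  rw [mul_zero] at hlim
  have hle : |p0| ≤ 0 := ge_of_tendsto' hlim fun t => by
    rw [div_pow, ← mul_div_assoc, le_div_iff₀ (pow_pos hσ0 t), mul_comm]
    exact hb t
  linarith

theorem two_particle [Nontrivial ι] {w : Finset ι → ℝ} (hw : ∀ B, 0 ≤ w B) (k : ℕ) :
    ∃ l : ℝ, IsLeast {x | x ∈ (Lm w (k + 2)).charpoly.roots.erase 0} l ∧
      IsLeast {x | x ∈ (Lm w 2).charpoly.roots.erase 0} l := by
  obtain ⟨i0, i1, hi⟩ := exists_pair_ne ι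
  have hne : ∀ k, Nonempty (Om ι k) := fun k => ⟨⟨Pi.single i0 k, by simp⟩⟩
  have hnt : Nontrivial (Om ι 2) := ⟨⟨Pi.single i0 2, by simp⟩, ⟨Pi.single i1 2, by simp⟩, by
    intro h
    have := congrFun (congrArg Subtype.val h) i0
    simp [hi] at this⟩
  set R := (Lm w 2).charpoly.roots.erase 0 with hR
  have hRne : R.toFinset.Nonempty := by
    rw [Multiset.toFinset_nonempty, ← Multiset.card_pos]
    have h1 := card_roots_eq (Lm_herm w 2)
    have h2 := Fintype.one_lt_card (α := Om ι 2)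
    have h3 := Multiset.card_erase_eq_ite (s := (Lm w 2).charpoly.roots) (a := 0)
    rw [hR, h3, h1]
    split_ifs
    · rw [Nat.pred_eq_sub_one]; omega
    · omega
  have hmem : ∀ k μ, μ ∈ (Lm w k).charpoly.roots.erase 0 ↔ EigT w k μ := fun k μ => by
    rw [mem_erase_iff (Lm_herm w k) (Lm_one w k), Eig_iff]
  set l := R.toFinset.min' hRne with hl
  have hlm : l ∈ R := Multiset.mem_toFinset.mp (Finset.min'_mem _ _)
  have hll : ∀ μ ∈ R, l ≤ μ := fun μ h => Finset.min'_le _ _ (Multiset.mem_toFinset.mpr h)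
  set W := max (R.toFinset.max' hRne) (∑ B, w B + 1) with hW
  have hs0 : 0 ≤ ∑ B, w B := Finset.sum_nonneg fun B _ => hw B
  have hW1 : ∑ B, w B + 1 ≤ W := le_max_right _ _
  have hWR : ∀ μ ∈ R, μ ≤ W := fun μ h =>
    (Finset.le_max' _ _ (Multiset.mem_toFinset.mpr h)).trans (le_max_left _ _)
  have hE : ∀ μ, Eig (Lm w 2) μ → l ≤ μ ∧ μ ≤ W := fun μ h => by
    have := (mem_erase_iff (Lm_herm w 2) (Lm_one w 2) μ).mpr h
    exact ⟨hll μ this, hWR μ this⟩
  refine ⟨l, ⟨?_, ?_⟩, hlm, hll⟩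
  · refine (hmem _ l).mpr ?_
    induction k with
    | zero => exact (hmem 2 l).mp hlm
    | succ k ih => exact ih.up
  · intro μ hμ
    have h1 : EigT w (k + 2) μ := (hmem _ μ).mp hμ
    clear hμ
    induction k with
    | zero => exact hll μ ((hmem 2 μ).mpr h1)
    | succ k ih =>
      rcases h1.down with h2 | ⟨v, hv0, hD, he⟩
      · exact ih h2
      · exact invariant_case hw (by linarith) (by linarith) (hWR l hlm) hE (k := k + 1) hv0 hD he

end Pool.Agent.H93Z.KMP
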