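import Mathlib

/-! Spectral facts for real symmetric matrices killing the constant vector. -/

set_option autoImplicit false

namespace Pool.Agent.H93Z.KMP

open Matrix Finset Polynomial

variable {α : Type*} [Fintype α] [DecidableEq α]

lemma eig_basis (A : Matrix α α ℝ) (hA : A.IsHermitian) :
    ∃ (lam : α → ℝ) (e : α → α → ℝ), A.charpoly = ∏ i, (X - C (lam i)) ∧
      (∀ i, A *ᵥ e i = lam i • e i) ∧ (∀ i j, e i ⬝ᵥ e j = if i = j then 1 else 0) ∧
      ∀ x : α → ℝ, x = ∑ i, (e i ⬝ᵥ x) • e i := by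
  refine ⟨hA.eigenvalues, fun i => ⇑(hA.eigenvectorBasis i), by simpa using hA.charpoly_eq,
    hA.mulVec_eigenvectorBasis, fun i j => ?_, fun x => ?_⟩
  · have h := orthonormal_iff_ite.mp hA.eigenvectorBasis.orthonormal i j
    rw [EuclideanSpace.inner_eq_star_dotProduct] at h
    simpa [dotProduct_comm] using h
  · have h := hA.eigenvectorBasis.sum_repr' (WithLp.toLp 2 x)
    have h2 := congrArg (fun y : EuclideanSpace ℝ α => (y : α → ℝ)) h
    simp only [EuclideanSpace.inner_eq_star_dotProduct, star_trivial, WithLp.ofLp_sum,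
      WithLp.ofLp_smul] at h2
    simp only [dotProduct_comm _ x]
    exact h2.symm

/-- Eigenvalues on the orthogonal complement of the constants. -/
def Eig (A : Matrix α α ℝ) (μ : ℝ) : Prop := ∃ x : α → ℝ, x ≠ 0 ∧ ∑ a, x a = 0 ∧ A *ᵥ x = μ • x

lemma dot_symm {A : Matrix α α ℝ} (hA : A.IsHermitian) (x y : α → ℝ) :
    x ⬝ᵥ A *ᵥ y = A *ᵥ x ⬝ᵥ y := by
  have h : Aᵀ = A := by simpa using hA.eq
  rw [dotProduct_mulVec, ← mulVec_transpose, h]

lemma sum_mulVec {A : Matrix α α ℝ} (hA : A.IsHermitian) (h1 : A *ᵥ (fun _ => 1) = 0)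
    (x : α → ℝ) : ∑ a, (A *ᵥ x) a = 0 := by
  have h := dot_symm hA (fun _ => 1) x
  rw [h1] at h
  simpa [dotProduct] using h

lemma mem_erase_iff [Nonempty α] {A : Matrix α α ℝ} (hA : A.IsHermitian)
    (h1 : A *ᵥ (fun _ => 1) = 0) (μ : ℝ) : μ ∈ A.charpoly.roots.erase 0 ↔ Eig A μ := by
  obtain ⟨lam, e, hc, he, ho, hx⟩ := eig_basis A hA
  have hr : A.charpoly.roots = Multiset.map lam univ.val := by
    rw [hc, Polynomial.roots_prod]
    · simp
    · simp [Finset.prod_ne_zero_iff, Polynomial.X_sub_C_ne_zero]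
  have hne : ∀ i, e i ≠ 0 := by
    intro i h
    have := ho i i
    rw [h] at this; simp at this
  have hcoef : ∀ (x : α → ℝ) (ν : ℝ), A *ᵥ x = ν • x → ∀ i, lam i ≠ ν → e i ⬝ᵥ x = 0 := by
    intro x ν h i hi
    have h2 := dot_symm hA (e i) x
    rw [h, he, dotProduct_smul, smul_dotProduct, smul_eq_mul, smul_eq_mul] at h2
    by_contra h3
    exact hi (mul_right_cancel₀ h3 h2).symm
  rw [hr]
  by_cases hμ : μ = 0
  · subst hμ
    rw [← Multiset.count_pos, Multiset.count_erase_self, Multiset.count_map]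
    have hcard : Multiset.card (Multiset.filter (fun a => 0 = lam a) univ.val) =
        (univ.filter fun a => 0 = lam a).card := rfl
    rw [hcard, Nat.sub_pos_iff_lt, Finset.one_lt_card]
    constructor
    · rintro ⟨i, hi, j, hj, hij⟩
      simp only [mem_filter, mem_univ, true_and] at hi hj
      by_cases hs : ∑ a, e i a = 0
      · exact ⟨e i, hne i, hs, by rw [he, ← hi]⟩
      · refine ⟨(∑ a, e j a) • e i - (∑ a, e i a) • e j, fun h => hs ?_, ?_, ?_⟩
        · have h2 := congrArg (fun y => e j ⬝ᵥ y) h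
          simp only [dotProduct_sub, dotProduct_smul, ho, if_neg hij.symm, if_true,
            dotProduct_zero, smul_eq_mul] at h2
          linarith
        · simp only [Pi.sub_apply, Pi.smul_apply, smul_eq_mul, Finset.sum_sub_distrib,
            ← Finset.mul_sum]
          ring
        · rw [mulVec_sub, mulVec_smul, mulVec_smul, he, he, ← hi, ← hj]; simp
    · rintro ⟨x, hx0, hxs, hxA⟩
      by_contra hc'
      push Not at hc'
      simp only [mem_filter, mem_univ, true_and] at hc'
      obtain ⟨i0, hi0⟩ : ∃ i, 0 = lam i := by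
        by_contra h
        push Not at h
        apply hx0
        rw [hx x]
        exact Finset.sum_eq_zero fun i _ => by rw [hcoef x 0 hxA i (h i).symm, zero_smul]
      have hker : ∀ y : α → ℝ, A *ᵥ y = (0 : ℝ) • y → y = (e i0 ⬝ᵥ y) • e i0 := by
        intro y hy
        conv_lhs => rw [hx y]
        rw [Finset.sum_eq_single i0]
        · intro i _ hi
          rw [hcoef y 0 hy i fun h => hi (hc' i h.symm i0 hi0), zero_smul]
        · simp
      have h2 := hker (fun _ => 1) (by rw [h1]; simp)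
      have h3 := hker x hxA
      have h4 : ∑ a, e i0 a ≠ 0 := by
        intro h
        have h5 := congrArg (fun y : α → ℝ => ∑ a, y a) h2
        simp only [Pi.smul_apply, smul_eq_mul, ← Finset.mul_sum, h, mul_zero, Finset.sum_const,
          Finset.card_univ, nsmul_eq_mul, mul_one] at h5
        exact absurd h5 (by exact_mod_cast Fintype.card_ne_zero)
      have h5 := congrArg (fun y : α → ℝ => ∑ a, y a) h3
      simp only [Pi.smul_apply, smul_eq_mul, ← Finset.mul_sum, hxs] at h5
      have h6 : e i0 ⬝ᵥ x = 0 := (mul_eq_zero.mp h5.symm).resolve_right h4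
      apply hx0
      rw [h3, h6, zero_smul]
  · rw [Multiset.mem_erase_of_ne hμ, Multiset.mem_map]
    constructor
    · rintro ⟨i, -, rfl⟩
      refine ⟨e i, hne i, ?_, he i⟩
      have h2 := sum_mulVec hA h1 (e i)
      rw [he] at h2
      simp only [Pi.smul_apply, smul_eq_mul, ← Finset.mul_sum] at h2
      exact (mul_eq_zero.mp h2).resolve_left hμ
    · rintro ⟨x, hx0, -, hxA⟩
      by_contra h
      push Not at h
      apply hx0
      rw [hx x]
      exact Finset.sum_eq_zero fun i _ => by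
        rw [hcoef x μ hxA i (h i (Finset.mem_univ_val i)), zero_smul]

lemma card_roots_eq {A : Matrix α α ℝ} (hA : A.IsHermitian) :
    Multiset.card A.charpoly.roots = Fintype.card α := by
  rw [hA.roots_charpoly_eq_eigenvalues]; simp

lemma roots_map_complex {A : Matrix α α ℝ} (hA : A.IsHermitian) :
    (A.map (Complex.ofRealHom)).charpoly.roots = A.charpoly.roots.map Complex.ofRealHom := by
  rw [Matrix.charpoly_map]
  refine (Polynomial.roots_map_of_injective_of_card_eq_natDegree Complex.ofReal_injective ?_).symm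
  rw [card_roots_eq hA, Matrix.charpoly_natDegree_eq_dim]

/-- Geometric decay on the orthogonal complement of the constants. -/
lemma decay [Nonempty α] {A : Matrix α α ℝ} (hA : A.IsHermitian) (h1 : A *ᵥ (fun _ => 1) = 0)
    {W l : ℝ} (hW : 0 < W) (hl : l ≤ W) (hE : ∀ μ, Eig A μ → l ≤ μ ∧ μ ≤ W)
    {u : α → ℝ} (hu : ∑ a, u a = 0) :
    ∃ c : ℝ, ∀ (t : ℕ) (a : α), |(((1 - W⁻¹ • A) ^ t) *ᵥ u) a| ≤ c * (1 - l / W) ^ t := by
  have hN : (Fintype.card α : ℝ) ≠ 0 := by exact_mod_cast Fintype.card_ne_zero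
  set J : Matrix α α ℝ := Matrix.of fun _ _ => (Fintype.card α : ℝ)⁻¹ with hJ
  have hJv : ∀ x : α → ℝ, J *ᵥ x = fun _ => (Fintype.card α : ℝ)⁻¹ * ∑ a, x a := by
    intro x; funext a; simp [hJ, mulVec, dotProduct, Finset.mul_sum]
  set P : Matrix α α ℝ := 1 - W⁻¹ • A with hP
  have hPs : ∀ x : α → ℝ, ∑ a, (P *ᵥ x) a = ∑ a, x a := by
    intro x
    rw [hP, sub_mulVec, one_mulVec, smul_mulVec]
    simp only [Pi.sub_apply, Pi.smul_apply, smul_eq_mul, Finset.sum_sub_distrib, ← Finset.mul_sum,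
      sum_mulVec hA h1 x]
    ring
  have hQ : (P - J).IsHermitian := by
    refine IsHermitian.sub (IsHermitian.sub isHermitian_one ?_) ?_
    · unfold IsHermitian
      rw [conjTranspose_smul, hA.eq]; simp
    · ext a b; simp [hJ]
  obtain ⟨lam, e, -, he, ho, hx⟩ := eig_basis (P - J) hQ
  have hρ : 0 ≤ 1 - l / W := by rw [sub_nonneg, div_le_one hW]; exact hl
  have hlam : ∀ i, |lam i| ≤ 1 - l / W := by
    intro i
    by_cases h0 : lam i = 0
    · rw [h0, abs_zero]; exact hρ
    have hne : e i ≠ 0 := by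
      intro h
      have := ho i i
      rw [h] at this; simp at this
    have h2 : ∑ a, ((P - J) *ᵥ e i) a = 0 := by
      rw [sub_mulVec]
      simp only [Pi.sub_apply, Finset.sum_sub_distrib, hPs, hJv, Finset.sum_const,
        Finset.card_univ, nsmul_eq_mul]
      field_simp
      ring
    rw [he] at h2
    simp only [Pi.smul_apply, smul_eq_mul, ← Finset.mul_sum] at h2
    have h3 : ∑ a, e i a = 0 := (mul_eq_zero.mp h2).resolve_left h0
    have h4 := he i
    rw [sub_mulVec, hJv, h3, hP, sub_mulVec, one_mulVec, smul_mulVec] at h4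
    have h5 : A *ᵥ e i = (W * (1 - lam i)) • e i := by
      funext a
      have := congrFun h4 a
      simp only [Pi.sub_apply, Pi.smul_apply, smul_eq_mul, mul_zero, sub_zero] at this ⊢
      field_simp at this
      linarith
    obtain ⟨h6, h7⟩ := hE _ ⟨e i, hne, h3, h5⟩
    have h8 : l / W ≤ 1 - lam i := by rw [div_le_iff₀ hW]; linarith
    have h9 : 0 ≤ lam i := by
      by_contra h
      push Not at h
      nlinarith
    rw [abs_of_nonneg h9]; linarith
  have hpow : ∀ t : ℕ, ∑ a, ((P ^ t) *ᵥ u) a = 0 ∧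
      (P ^ t) *ᵥ u = ∑ i, (lam i ^ t * (e i ⬝ᵥ u)) • e i := by
    intro t
    induction t with
    | zero => exact ⟨by simpa using hu, by simpa using hx u⟩
    | succ t ih =>
      rw [pow_succ', ← mulVec_mulVec]
      refine ⟨by rw [hPs, ih.1], ?_⟩
      have h2 : P *ᵥ (P ^ t) *ᵥ u = (P - J) *ᵥ (P ^ t) *ᵥ u := by
        rw [sub_mulVec P J, hJv, ih.1]; funext a; simp
      rw [h2, ih.2, mulVec_sum]
      refine Finset.sum_congr rfl fun i _ => ?_
      rw [mulVec_smul, he, smul_smul, pow_succ]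
      congr 1; ring
  refine ⟨∑ i, |e i ⬝ᵥ u| * ∑ a, |e i a|, fun t a => ?_⟩
  rw [(hpow t).2, Finset.sum_apply, Finset.sum_mul]
  refine (Finset.abs_sum_le_sum_abs _ _).trans (Finset.sum_le_sum fun i _ => ?_)
  simp only [Pi.smul_apply, smul_eq_mul, abs_mul, abs_pow]
  have h2 : |lam i| ^ t ≤ (1 - l / W) ^ t := pow_le_pow_left₀ (abs_nonneg _) (hlam i) t
  have h3 : |e i a| ≤ ∑ a, |e i a| :=
    Finset.single_le_sum (f := fun a => |e i a|) (fun _ _ => abs_nonneg _) (mem_univ a)
  calc |lam i| ^ t * |e i ⬝ᵥ u| * |e i a| ≤ (1 - l / W) ^ t * |e i ⬝ᵥ u| * ∑ a, |e i a| := by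
        gcongr
    _ = _ := by ring

end Pool.Agent.H93Z.KMP
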